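import Mathlib

/-!
# Cubic fourfolds, their planes and their Hodge classes: definitions
-/

set_option autoImplicit false

namespace Pool.Agent.Y95.Q

/-- A smooth cubic fourfold: a cubic form in six variables whose partial derivatives have no common
zero except `0`. -/
structure CubicFourfold where
  /-- the equation -/
  F : MvPolynomial (Fin 6) ℂ
  cubic : F.IsHomogeneous 3
  smooth : ∀ x : Fin 6 → ℂ, x ≠ 0 → ∃ i, MvPolynomial.eval x (MvPolynomial.pderiv i F) ≠ 0

namespace CubicFourfold

/-- The planes contained in the cubic fourfold. -/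
def Plane (X : CubicFourfold) : Type :=
  {W : Submodule ℂ (Fin 6 → ℂ) // Module.finrank ℂ W = 3 ∧ ∀ x ∈ W, MvPolynomial.eval x X.F = 0}

/-- The cubic fourfold is rational: it has a point `φ` with coordinates in the field
`ℂ(t_1, t_2, t_3, t_4)` such that the quotients of the coordinates generate this field. -/
def IsRational (X : CubicFourfold) : Prop :=
  ∃ φ : Fin 6 → FractionRing (MvPolynomial (Fin 4) ℂ), MvPolynomial.aeval φ X.F = 0 ∧
    IntermediateField.adjoin ℂ {z | ∃ i j, z = φ i / φ j} = ⊤

end CubicFourfold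

/-- The group `H^4(X, ℤ)` of a cubic fourfold `X`, identified with `ℤ^23` by the choice of a basis:
the matrix `B` of the intersection form, the square `h` of the hyperplane class, a generator `ω`
of the line `H^{3,1}(X)`, and the classes of the planes in `X`. -/
structure H4 (X : CubicFourfold) where
  /-- the matrix of the intersection form -/
  B : Matrix (Fin 23) (Fin 23) ℤ
  /-- the square of the hyperplane class -/
  h : Fin 23 → ℤ
  /-- a generator of `H^{3,1}` -/
  ω : Fin 23 → ℂ
  /-- the classes of the planes -/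
  cl : X.Plane → Fin 23 → ℤ

namespace H4

variable {X : CubicFourfold} (H : H4 X)

/-- The intersection form. -/
def ip (v w : Fin 23 → ℤ) : ℤ := ∑ i, ∑ j, v i * H.B i j * w j

/-- The class `v` is a Hodge class: it is orthogonal to `H^{3,1}`. -/
def IsHodge (v : Fin 23 → ℤ) : Prop := ∑ i, ∑ j, (v i : ℂ) * H.B i j * H.ω j = 0

/-- The rank of the group of Hodge classes. -/
noncomputable def rank : ℕ := Module.finrank ℤ (Submodule.span ℤ {v | H.IsHodge v})

/-- The discriminant of the group spanned by `h` and `v`. -/
def disc (v : Fin 23 → ℤ) : ℤ := 3 * H.ip v v - H.ip H.h v ^ 2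

/-- The group spanned by `h` and `v` is saturated. -/
def Saturated (v : Fin 23 → ℤ) : Prop :=
  ∀ (x : Fin 23 → ℤ) (m a b : ℤ), m ≠ 0 → m • x = a • H.h + b • v →
    ∃ a' b' : ℤ, x = a' • H.h + b' • v

/-- The known properties: the form is symmetric and unimodular, and positive on the Hodge
classes (Hodge, Riemann); the degree is three and `h` is characteristic; there is no Hodge
class `v` with `v.h = 1`, `v.v = 1` or `v.h = 0`, `v.v = 2` (the discriminants `2` and `6` do not
occur, Voisin, Hassett); the classes of the planes are the Hodge classes with `v.h = 1`,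
`v.v = 3` (Voisin), and `X` is rational if there are a plane `P` and a Hodge class `T` such
that `T.(h - P)` is odd (Hassett). -/
structure IsCohomology : Prop where
  symm : ∀ i j, H.B i j = H.B j i
  unimodular : IsUnit H.B.det
  h_hodge : H.IsHodge H.h
  h_self : H.ip H.h H.h = 3
  char : ∀ v, Even (H.ip v v - H.ip v H.h)
  pos : ∀ v, H.IsHodge v → v ≠ 0 → 0 < H.ip v v
  disc_two : ∀ v, H.IsHodge v → H.ip v H.h = 1 → H.ip v v ≠ 1
  disc_six : ∀ v, H.IsHodge v → H.ip v H.h = 0 → H.ip v v ≠ 2
  cl_injective : Function.Injective H.cl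
  cl_range : ∀ v, (∃ P, H.cl P = v) ↔ H.IsHodge v ∧ H.ip v H.h = 1 ∧ H.ip v v = 3
  hassett : ∀ P T, H.IsHodge T → Odd (H.ip T (H.h - H.cl P)) → X.IsRational

end H4

/-- The condition (**) of Hassett: `d > 6` is not divisible by `4`, `9`, or an odd prime number
`p` with `p ≡ 2 mod 3`. -/
def Admissible (d : ℤ) : Prop :=
  6 < d ∧ ¬ 4 ∣ d ∧ ¬ 9 ∣ d ∧ ∀ p : ℕ, p.Prime → p ≠ 2 → (p : ℤ) ∣ d → p % 3 ≠ 2

/-- There is a Hodge class `v` such that `h` and `v` span a saturated group with a discriminant as
in the condition (**). By a theorem of Hassett this means that there are a polarised K3 surface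
`(S, H)` and a primitive isometric embedding of Hodge structures of `H^2(S, ℤ)_pr` in
`H^4(X, ℤ)_pr`. -/
def H4.HasK3 {X : CubicFourfold} (H : H4 X) : Prop :=
  ∃ v, H.IsHodge v ∧ H.Saturated v ∧ Admissible (H.disc v)

end Pool.Agent.Y95.Q
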