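import Pool.Agent.Y95.Q.Defs

/-!
# The intersection form
-/

set_option autoImplicit false

namespace Pool.Agent.Y95.Q

namespace H4

open Finset

variable {X : CubicFourfold} (H : H4 X)

theorem ip_add_left (u v w : Fin 23 → ℤ) : H.ip (u + v) w = H.ip u w + H.ip v w := by
  simp only [ip, Pi.add_apply, add_mul, sum_add_distrib]

theorem ip_add_right (u v w : Fin 23 → ℤ) : H.ip u (v + w) = H.ip u v + H.ip u w := by
  simp only [ip, Pi.add_apply, mul_add, sum_add_distrib]

theorem ip_smul_left (n : ℤ) (u w : Fin 23 → ℤ) : H.ip (n • u) w = n * H.ip u w := by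
  simp only [ip, Pi.smul_apply, smul_eq_mul, mul_sum, mul_assoc]

theorem ip_smul_right (n : ℤ) (u w : Fin 23 → ℤ) : H.ip u (n • w) = n * H.ip u w := by
  simp only [ip, Pi.smul_apply, smul_eq_mul, mul_sum]
  refine sum_congr rfl fun i _ => sum_congr rfl fun j _ => ?_
  ring

theorem ip_neg_left (u w : Fin 23 → ℤ) : H.ip (-u) w = -H.ip u w := by
  have h := H.ip_smul_left (-1) u w
  rwa [neg_one_smul, neg_one_mul] at h

theorem ip_neg_right (u w : Fin 23 → ℤ) : H.ip u (-w) = -H.ip u w := by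
  have h := H.ip_smul_right (-1) u w
  rwa [neg_one_smul, neg_one_mul] at h

theorem ip_sub_left (u v w : Fin 23 → ℤ) : H.ip (u - v) w = H.ip u w - H.ip v w := by
  rw [sub_eq_add_neg, ip_add_left, ip_neg_left]; ring

theorem ip_sub_right (u v w : Fin 23 → ℤ) : H.ip u (v - w) = H.ip u v - H.ip u w := by
  rw [sub_eq_add_neg, ip_add_right, ip_neg_right]; ring

theorem ip_zero_left (w : Fin 23 → ℤ) : H.ip 0 w = 0 := by
  have h := H.ip_smul_left 0 0 w
  rwa [zero_smul, zero_mul] at h

theorem ip_zero_right (w : Fin 23 → ℤ) : H.ip w 0 = 0 := by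
  have h := H.ip_smul_right 0 w 0
  rwa [zero_smul, zero_mul] at h

theorem ip_sum_left {ι : Type*} (s : Finset ι) (f : ι → Fin 23 → ℤ) (w : Fin 23 → ℤ) :
    H.ip (∑ i ∈ s, f i) w = ∑ i ∈ s, H.ip (f i) w := by
  classical
  induction s using Finset.induction_on with
  | empty => simp [ip_zero_left]
  | insert a s ha ih => rw [sum_insert ha, sum_insert ha, ip_add_left, ih]

theorem ip_sum_right {ι : Type*} (s : Finset ι) (f : ι → Fin 23 → ℤ) (w : Fin 23 → ℤ) :
    H.ip w (∑ i ∈ s, f i) = ∑ i ∈ s, H.ip w (f i) := by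
  classical
  induction s using Finset.induction_on with
  | empty => simp [ip_zero_right]
  | insert a s ha ih => rw [sum_insert ha, sum_insert ha, ip_add_right, ih]

theorem isHodge_add {u v : Fin 23 → ℤ} (hu : H.IsHodge u) (hv : H.IsHodge v) :
    H.IsHodge (u + v) := by
  unfold IsHodge at *
  have : ∀ i j, (((u + v) i : ℤ) : ℂ) * H.B i j * H.ω j =
      (u i : ℂ) * H.B i j * H.ω j + (v i : ℂ) * H.B i j * H.ω j := by
    intro i j
    rw [Pi.add_apply]
    push_cast
    ring
  simp only [this, sum_add_distrib, hu, hv, add_zero]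

theorem isHodge_smul {u : Fin 23 → ℤ} (n : ℤ) (hu : H.IsHodge u) : H.IsHodge (n • u) := by
  unfold IsHodge at *
  have : ∀ i j, (((n • u) i : ℤ) : ℂ) * H.B i j * H.ω j =
      (n : ℂ) * ((u i : ℂ) * H.B i j * H.ω j) := by
    intro i j
    rw [Pi.smul_apply, smul_eq_mul]
    push_cast
    ring
  simp only [this, ← mul_sum, hu, mul_zero]

theorem isHodge_zero : H.IsHodge 0 := by simp [IsHodge]

theorem isHodge_neg {u : Fin 23 → ℤ} (hu : H.IsHodge u) : H.IsHodge (-u) := by
  have h := H.isHodge_smul (-1) hu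
  rwa [neg_one_smul] at h

theorem isHodge_sub {u v : Fin 23 → ℤ} (hu : H.IsHodge u) (hv : H.IsHodge v) :
    H.IsHodge (u - v) := by
  rw [sub_eq_add_neg]
  exact H.isHodge_add hu (H.isHodge_neg hv)

theorem isHodge_sum {ι : Type*} (s : Finset ι) (f : ι → Fin 23 → ℤ)
    (h : ∀ i ∈ s, H.IsHodge (f i)) : H.IsHodge (∑ i ∈ s, f i) := by
  classical
  induction s using Finset.induction_on with
  | empty => simpa using H.isHodge_zero
  | insert a s ha ih =>
    rw [sum_insert ha]
    exact H.isHodge_add (h a (mem_insert_self _ _)) (ih fun i hi => h i (mem_insert_of_mem hi))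

theorem isHodge_of_smul {u : Fin 23 → ℤ} {n : ℤ} (hn : n ≠ 0) (hu : H.IsHodge (n • u)) :
    H.IsHodge u := by
  unfold IsHodge at *
  have : ∀ i j, (((n • u) i : ℤ) : ℂ) * H.B i j * H.ω j =
      (n : ℂ) * ((u i : ℂ) * H.B i j * H.ω j) := by
    intro i j
    rw [Pi.smul_apply, smul_eq_mul]
    push_cast
    ring
  simp only [this, ← mul_sum] at hu
  rcases mul_eq_zero.1 hu with h | h
  · exact absurd (by exact_mod_cast h) hn
  · exact h

variable {H}

theorem IsCohomology.comm (hH : H.IsCohomology) (u v : Fin 23 → ℤ) : H.ip u v = H.ip v u := by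
  unfold ip
  rw [sum_comm]
  refine sum_congr rfl fun i _ => sum_congr rfl fun j _ => ?_
  rw [hH.symm j i]
  ring

theorem IsCohomology.nonneg (hH : H.IsCohomology) {v : Fin 23 → ℤ} (hv : H.IsHodge v) :
    0 ≤ H.ip v v := by
  by_cases h : v = 0
  · rw [h, ip_zero_left]
  · exact (hH.pos v hv h).le

end H4

end Pool.Agent.Y95.Q
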