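import Pool.Agent.Y95.Q.Count

/-!
# The discriminants
-/

set_option autoImplicit false

namespace Pool.Agent.Y95.Q

section arith

theorem four_not_dvd {a d n : ℤ} (h : a ^ 2 * d = 2 * n ^ 2 + 2 * n + 2) : ¬ 4 ∣ d := by
  rintro ⟨e, rfl⟩
  obtain ⟨m, hm⟩ := Int.even_mul_succ_self n
  have h1 : 2 * n ^ 2 + 2 * n + 2 = 2 * (n * (n + 1)) + 2 := by ring
  rw [h1, hm] at h
  have h2 : a ^ 2 * (4 * e) = 4 * (a ^ 2 * e) := by ring
  rw [h2] at h
  omega

theorem nine_not_dvd {a d n : ℤ} (h : a ^ 2 * d = 2 * n ^ 2 + 2 * n + 2) : ¬ 9 ∣ d := by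
  intro hd
  have h1 : (9 : ℤ) ∣ 2 * n ^ 2 + 2 * n + 2 := h ▸ hd.mul_left _
  have key : ∀ x : ZMod 9, 2 * x ^ 2 + 2 * x + 2 ≠ 0 := by decide
  apply key (n : ZMod 9)
  have h2 := (ZMod.intCast_zmod_eq_zero_iff_dvd _ 9).2 h1
  push_cast at h2
  exact h2

theorem prime_mod {a d n : ℤ} (h : a ^ 2 * d = 2 * n ^ 2 + 2 * n + 2) {p : ℕ} (hp : p.Prime)
    (hp2 : p ≠ 2) (hd : (p : ℤ) ∣ d) : p % 3 ≠ 2 := by
  have : Fact p.Prime := ⟨hp⟩
  intro h3
  have h1 : (p : ℤ) ∣ 2 * n ^ 2 + 2 * n + 2 := h ▸ hd.mul_left _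
  have h2 := (ZMod.intCast_zmod_eq_zero_iff_dvd _ p).2 h1
  push_cast at h2
  set x : ZMod p := (n : ZMod p)
  have h20 : (2 : ZMod p) ≠ 0 := by
    intro h4
    have h5 : ((2 : ℕ) : ZMod p) = 0 := by exact_mod_cast h4
    rw [ZMod.natCast_eq_zero_iff] at h5
    exact hp2 ((Nat.prime_dvd_prime_iff_eq hp Nat.prime_two).1 h5)
  have h4 : x ^ 2 + x + 1 = 0 := by
    have h5 : 2 * (x ^ 2 + x + 1) = 0 := by linear_combination h2
    exact (mul_eq_zero.1 h5).resolve_left h20
  have h5 : x ^ 3 = 1 := by linear_combination (x - 1) * h4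
  have h6 : x ≠ 1 := by
    intro h7
    rw [h7] at h4
    have h8 : ((3 : ℕ) : ZMod p) = 0 := by
      push_cast
      linear_combination h4
    rw [ZMod.natCast_eq_zero_iff] at h8
    have h9 := (Nat.prime_dvd_prime_iff_eq hp Nat.prime_three).1 h8
    rw [h9] at h3
    norm_num at h3
  have h7 : x ≠ 0 := by
    intro h8
    rw [h8] at h4
    simp at h4
  have h8 : orderOf x = 3 := orderOf_eq_prime h5 h6
  have h9 := ZMod.orderOf_dvd_card_sub_one h7
  rw [h8] at h9
  have := hp.two_le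
  omega

end arith

namespace H4

variable {X : CubicFourfold} {H : H4 X}

theorem IsCohomology.disc_comb (hH : H.IsCohomology) (m l : ℤ) (v : Fin 23 → ℤ) :
    H.disc (m • v + l • H.h) = m ^ 2 * H.disc v := by
  simp only [disc, ip_add_left, ip_add_right, ip_smul_left, ip_smul_right, hH.h_self,
    hH.comm v H.h]
  ring

/-- `h` is primitive. -/
theorem IsCohomology.h_prim (hH : H.IsCohomology) {g c : ℤ} {z : Fin 23 → ℤ} (hg : g ≠ 0)
    (h : g • z = c • H.h) : ∃ c', c = g * c' ∧ z = c' • H.h := by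
  have h1 : g ^ 2 * H.ip z z = 3 * c ^ 2 := by
    have := congrArg (fun t => H.ip t t) h
    simp only [ip_smul_left, ip_smul_right, hH.h_self] at this
    linarith
  have h2 : g ∣ c := by
    have h3 : g ^ 2 ∣ 3 * c ^ 2 := ⟨_, h1.symm⟩
    by_cases hc : c = 0
    · simp [hc]
    obtain ⟨d, hd, g', c', hcop, hg', hc'⟩ : ∃ d : ℤ, d ≠ 0 ∧ ∃ g' c' : ℤ,
        IsCoprime g' c' ∧ g = d * g' ∧ c = d * c' := by
      refine ⟨(Int.gcd g c : ℤ), ?_, ?_⟩
      · have : Int.gcd g c ≠ 0 := by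
          intro h0
          exact hg (Int.eq_zero_of_gcd_eq_zero_left h0)
        exact_mod_cast this
      · obtain ⟨g', hg'⟩ := Int.gcd_dvd_left g c
        obtain ⟨c', hc'⟩ := Int.gcd_dvd_right g c
        refine ⟨g', c', ?_, hg', hc'⟩
        have h0 : (Int.gcd g c : ℤ) ≠ 0 := by
          have : Int.gcd g c ≠ 0 := by
            intro h0
            exact hg (Int.eq_zero_of_gcd_eq_zero_left h0)
          exact_mod_cast this
        have hb := Int.gcd_eq_gcd_ab g c
        refine ⟨Int.gcdA g c, Int.gcdB g c, ?_⟩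
        apply mul_left_cancel₀ h0
        calc (Int.gcd g c : ℤ) * (Int.gcdA g c * g' + Int.gcdB g c * c')
            = ((Int.gcd g c : ℤ) * g') * Int.gcdA g c
              + ((Int.gcd g c : ℤ) * c') * Int.gcdB g c := by ring
          _ = g * Int.gcdA g c + c * Int.gcdB g c := by rw [← hg', ← hc']
          _ = (Int.gcd g c : ℤ) * 1 := by rw [← hb, mul_one]
    have h4 : g' ^ 2 ∣ 3 * c' ^ 2 := by
      obtain ⟨t, ht⟩ := h3
      refine ⟨t, ?_⟩
      have hd2 : d ^ 2 ≠ 0 := pow_ne_zero 2 hd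
      apply mul_left_cancel₀ hd2
      rw [hg', hc'] at ht
      linear_combination ht
    have h5 : g' ^ 2 ∣ 3 := by
      have : IsCoprime (g' ^ 2) (c' ^ 2) := hcop.pow
      exact this.dvd_of_dvd_mul_right h4
    have h6 : g' ^ 2 = 1 := by
      have hpos : 0 < g' ^ 2 := by
        have : g' ≠ 0 := by
          rintro rfl
          apply hg
          rw [hg', mul_zero]
        positivity
      have hle : g' ^ 2 ≤ 3 := Int.le_of_dvd (by norm_num) h5
      have : |g'| < 2 := by
        by_contra hcon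
        push Not at hcon
        have : 4 ≤ g' ^ 2 := by
          rw [← sq_abs]
          nlinarith
        linarith
      have h7 : g' = 1 ∨ g' = -1 ∨ g' = 0 := by
        rw [abs_lt] at this
        omega
      rcases h7 with h7 | h7 | h7
      · rw [h7]; norm_num
      · rw [h7]; norm_num
      · rw [h7] at hpos; norm_num at hpos
    have h8 : g' = 1 ∨ g' = -1 := by
      have : (g' - 1) * (g' + 1) = 0 := by linear_combination h6
      rcases mul_eq_zero.mp this with h | h
      · left; omega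
      · right; omega
    rcases h8 with h8 | h8
    · exact ⟨c', by rw [hg', hc', h8]; ring⟩
    · exact ⟨-c', by rw [hg', hc', h8]; ring⟩
  obtain ⟨c', hc'⟩ := h2
  refine ⟨c', hc', ?_⟩
  have h9 : g • (z - c' • H.h) = 0 := by
    rw [smul_sub, h, hc', mul_smul, sub_self]
  exact sub_eq_zero.mp ((smul_eq_zero.1 h9).resolve_left hg)

/-- Every `v` with positive discriminant gives a saturated group of rank two. -/
theorem IsCohomology.exists_saturated (hH : H.IsCohomology) (v : Fin 23 → ℤ)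
    (hv : 0 < H.disc v) : ∃ (w : Fin 23 → ℤ) (m l : ℤ), 0 < m ∧ H.Saturated w ∧
      v = m • w + l • H.h := by
  classical
  let S : Set ℕ := {m | 0 < m ∧ ∃ (w : Fin 23 → ℤ) (l : ℤ), v = (m : ℤ) • w + l • H.h}
  have hS1 : (1 : ℕ) ∈ S := ⟨one_pos, v, 0, by simp⟩
  have hbound : ∀ m ∈ S, m ≤ (H.disc v).toNat := by
    rintro m ⟨hm, w, l, hw⟩
    have h1 : (m : ℤ) ^ 2 * H.disc w = H.disc v := by rw [hw, hH.disc_comb]
    have hm' : (0 : ℤ) < m := by exact_mod_cast hm
    have h2 : 0 < H.disc w := by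
      by_contra hcon
      push Not at hcon
      have : (m : ℤ) ^ 2 * H.disc w ≤ 0 := mul_nonpos_of_nonneg_of_nonpos (by positivity) hcon
      linarith
    have h3 : (m : ℤ) ≤ H.disc v := by nlinarith
    have := Int.toNat_le_toNat h3
    simpa using this
  have hfin : S.Finite := Set.Finite.subset (Set.finite_Iic _) hbound
  obtain ⟨M, hMS, hMmax⟩ := hfin.exists_maximal ⟨1, hS1⟩
  obtain ⟨hM0, w, l, hw⟩ := hMS
  refine ⟨w, M, l, by exact_mod_cast hM0, ?_, hw⟩
  intro x k a b hk hx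
  set g : ℤ := (Int.gcd k b : ℤ) with hg
  have hg0 : g ≠ 0 := by
    have h0 : Int.gcd k b ≠ 0 := fun h0 => hk (Int.eq_zero_of_gcd_eq_zero_left h0)
    rw [hg]
    exact Int.natCast_ne_zero.mpr h0
  obtain ⟨k', hk'⟩ : g ∣ k := Int.gcd_dvd_left k b
  obtain ⟨b', hb'⟩ : g ∣ b := Int.gcd_dvd_right k b
  set r := Int.gcdB k b
  set s := Int.gcdA k b
  have hbez : g = k * s + b * r := Int.gcd_eq_gcd_ab k b
  have hu : g • (k' • (r • x + s • w) - w) = (r * a) • H.h := by
    have : g • (k' • (r • x + s • w) - w) = r • (k • x) + (k * s) • w - g • w := by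
      rw [hk']
      module
    rw [this, hx, hbez]
    module
  obtain ⟨c', hc1, hc2⟩ := hH.h_prim hg0 hu
  have hk'ne : k' ≠ 0 := by
    rintro rfl
    exact hk (by rw [hk', mul_zero])
  have hw2 : w = k' • (r • x + s • w) - c' • H.h := by
    rw [← hc2]; abel
  have hk1 : k'.natAbs = 1 := by
    by_contra hcon
    have hpos : 0 < k'.natAbs := Int.natAbs_pos.mpr hk'ne
    have h2 : 1 < k'.natAbs := by omega
    have hmem : M * k'.natAbs ∈ S := by
      refine ⟨Nat.mul_pos hM0 hpos, ?_⟩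
      have hsgn : (k'.natAbs : ℤ) * k'.sign = k' := by
        rw [mul_comm]; exact Int.sign_mul_natAbs k'
      refine ⟨k'.sign • (r • x + s • w), l - M * c', ?_⟩
      have hv2 : v = (M : ℤ) • (k' • (r • x + s • w) - c' • H.h) + l • H.h := by
        rw [← hw2]; exact hw
      have hcast : ((M * k'.natAbs : ℕ) : ℤ) • (k'.sign • (r • x + s • w))
          = (M : ℤ) • (k' • (r • x + s • w)) := by
        rw [Nat.cast_mul, smul_smul, mul_assoc, hsgn, mul_smul]
      rw [hcast, hv2, smul_sub, sub_smul, mul_smul]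
      abel
    have h3 := hMmax hmem (Nat.le_mul_of_pos_right M hpos)
    have h4 : M * 1 < M * k'.natAbs := Nat.mul_lt_mul_of_pos_left h2 hM0
    simp at h4
    omega
  have hk1' : k' = 1 ∨ k' = -1 := Int.natAbs_eq_iff.mp hk1 |> fun h => by simpa using h
  have hfin2 : ∀ β : ℤ, k • (x - β • w) = a • H.h → ∃ a' b' : ℤ, x = a' • H.h + b' • w := by
    intro β hβ
    obtain ⟨c2, _, h2⟩ := hH.h_prim hk hβ
    exact ⟨c2, β, by rw [← h2]; abel⟩
  rcases hk1' with h1 | h1
  · apply hfin2 b'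
    have : b = k * b' := by rw [hk', h1, hb']; ring
    rw [smul_sub, hx, this]
    module
  · apply hfin2 (-b')
    have : b = k * (-b') := by rw [hk', h1, hb']; ring
    rw [smul_sub, hx, this]
    module

/-- small discriminants do not occur -/
theorem IsCohomology.six_lt (hH : H.IsCohomology) {w : Fin 23 → ℤ} (hw : H.IsHodge w)
    (h0 : 0 < H.disc w) : 6 < H.disc w := by
  by_contra h6
  obtain ⟨c, hc⟩ := hH.char w
  set y := H.ip w H.h with hy
  have hy' : H.ip H.h w = y := hH.comm _ _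
  have hd : H.disc w = 3 * H.ip w w - y ^ 2 := by rw [disc, hy']
  have hsh : ∀ k : ℤ, H.ip (w - k • H.h) H.h = y - 3 * k := by
    intro k
    rw [ip_sub_left, ip_smul_left, hH.h_self]
    ring
  have hss : ∀ k : ℤ, H.ip (w - k • H.h) (w - k • H.h) = H.ip w w - 2 * k * y + 3 * k ^ 2 := by
    intro k
    simp only [ip_sub_left, ip_sub_right, ip_smul_left, ip_smul_right, hH.h_self, hy', ← hy]
    ring
  have hHk : ∀ k : ℤ, H.IsHodge (w - k • H.h) := fun k =>
    H.isHodge_sub hw (H.isHodge_smul k hH.h_hodge)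
  have hy3 : y % 3 = 0 ∨ y % 3 = 1 ∨ y % 3 = 2 := by omega
  have hyk : y = 3 * (y / 3) + y % 3 := (Int.mul_ediv_add_emod y 3).symm
  generalize y / 3 = k at hyk
  have a1 := hsh k
  have a2 := hss k
  have a3 := hHk k
  have b1 := hsh (k + 1)
  have b2 := hss (k + 1)
  have b3 := hHk (k + 1)
  generalize w - k • H.h = u at a1 a2 a3
  generalize w - (k + 1) • H.h = u' at b1 b2 b3
  generalize H.ip w w = z at hc a2 b2 hd
  have hpos : 0 < 3 * z - y ^ 2 := hd ▸ h0
  have hle : 3 * z - y ^ 2 ≤ 6 := by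
    rw [← hd]
    omega
  rcases hy3 with h | h | h
  · rw [h] at hyk
    -- `u.h = 0`, `3 u.u = disc`
    have e1 : H.ip u H.h = 0 := by rw [a1]; omega
    have e2 : 3 * H.ip u u = 3 * z - y ^ 2 := by
      rw [a2, hyk]
      ring
    have e3 : Even (H.ip u u) := by
      have := hH.char u
      rwa [e1, sub_zero] at this
    obtain ⟨m, hm⟩ := e3
    have e4 : H.ip u u = 2 := by omega
    exact hH.disc_six u a3 e1 e4
  · rw [h] at hyk
    have e1 : H.ip u H.h = 1 := by rw [a1]; omega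
    have e2 : 3 * H.ip u u - 1 = 3 * z - y ^ 2 := by
      rw [a2, hyk]
      ring
    have e3 : Even (H.ip u u - 1) := by
      have := hH.char u
      rwa [e1] at this
    obtain ⟨m, hm⟩ := e3
    have e4 : H.ip u u = 1 := by omega
    exact hH.disc_two u a3 e1 e4
  · rw [h] at hyk
    have e1 : H.ip (-u') H.h = 1 := by rw [ip_neg_left, b1]; omega
    have e2 : 3 * H.ip (-u') (-u') - 1 = 3 * z - y ^ 2 := by
      rw [ip_neg_left, ip_neg_right, b2, hyk]
      ring
    have e3 : Even (H.ip (-u') (-u') - 1) := by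
      have := hH.char (-u')
      rwa [e1] at this
    obtain ⟨m, hm⟩ := e3
    have e4 : H.ip (-u') (-u') = 1 := by omega
    exact hH.disc_two (-u') (H.isHodge_neg b3) e1 e4

/-- a plane and an odd class give an admissible discriminant -/
theorem IsCohomology.hasK3 (hH : H.IsCohomology) {P T : Fin 23 → ℤ} (hP : H.IsPl P)
    (hT : H.IsHodge T) (hodd : Odd (H.ip T (H.h - P))) : H.HasK3 := by
  set b : ℤ := 3 * H.ip P T - H.ip H.h T with hb
  have hbo : Odd b := by
    rw [ip_sub_right, hH.comm T H.h, hH.comm T P] at hodd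
    have h1 : b = (H.ip H.h T - H.ip P T) + 2 * (2 * H.ip P T - H.ip H.h T) := by
      rw [hb]
      ring
    rw [h1]
    exact hodd.add_even (even_two_mul _)
  obtain ⟨i, hi⟩ := hbo
  -- `b * b = 4 j + 1`
  set j : ℤ := i ^ 2 + i with hj
  have hbj : b * b = 4 * j + 1 := by
    rw [hi, hj]
    ring
  obtain ⟨c, hc⟩ : Even (H.disc (b • T)) := by
    have h1 := hH.char (b • T)
    have h2 : H.ip (b • T) H.h = H.ip H.h (b • T) := hH.comm _ _
    rw [h2] at h1
    have h3 : H.disc (b • T) = 2 * H.ip (b • T) (b • T) +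
        (H.ip (b • T) (b • T) - H.ip H.h (b • T)) +
        (H.ip H.h (b • T) - H.ip H.h (b • T) ^ 2) := by
      simp only [disc]; ring
    rw [h3]
    refine Even.add (Even.add (even_two_mul _) h1) ?_
    have h4 : H.ip H.h (b • T) - H.ip H.h (b • T) ^ 2 =
        -(H.ip H.h (b • T) * (H.ip H.h (b • T) - 1)) := by ring
    rw [h4]
    exact (Int.even_mul_pred_self _).neg
  set x : ℤ := c - 1 - j - j ^ 2 with hx
  set n : ℤ := 2 * x + j with hn
  have hv : H.disc (x • P + b • T) = 2 * n ^ 2 + 2 * n + 2 := by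
    have h1 : H.disc (x • P + b • T) = 8 * x ^ 2 + 2 * x * (b * b) + H.disc (b • T) := by
      have hhP : H.ip H.h P = 1 := (hH.comm _ _).trans hP.2.1
      simp only [disc, ip_add_left, ip_add_right, ip_smul_left, ip_smul_right, hP.2.2, hhP,
        hH.comm T P, hb]
      ring
    rw [h1, hbj, hc, hn, hx]
    ring
  have hpos : 0 < H.disc (x • P + b • T) := by
    rw [hv]
    nlinarith [sq_nonneg (2 * n + 1)]
  have hvH : H.IsHodge (x • P + b • T) :=
    H.isHodge_add (H.isHodge_smul _ hP.1) (H.isHodge_smul _ hT)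
  obtain ⟨w, m, l, hm, hsat, hw⟩ := hH.exists_saturated _ hpos
  have hwH : H.IsHodge w := by
    refine H.isHodge_of_smul hm.ne' ?_
    have h1 : m • w = x • P + b • T - l • H.h := by
      rw [hw]
      abel
    rw [h1]
    exact H.isHodge_sub hvH (H.isHodge_smul _ hH.h_hodge)
  have hmw : m ^ 2 * H.disc w = 2 * n ^ 2 + 2 * n + 2 := by
    rw [← hv, hw, hH.disc_comb]
  have hw0 : 0 < H.disc w := by
    by_contra hcon
    push Not at hcon
    have : m ^ 2 * H.disc w ≤ 0 := mul_nonpos_of_nonneg_of_nonpos (by positivity) hcon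
    rw [hmw, ← hv] at this
    linarith
  exact ⟨w, hwH, hsat, hH.six_lt hwH hw0, four_not_dvd hmw, nine_not_dvd hmw,
    fun p hp hp2 hd => prime_mod hmw hp hp2 hd⟩

/-- from an odd class to the conclusion -/
theorem IsCohomology.of_not_allEven (hH : H.IsCohomology) (h : ¬ H.AllEven) :
    X.IsRational ∧ H.HasK3 := by
  unfold AllEven at h
  push Not at h
  obtain ⟨P, hP, T, hT, hodd⟩ := h
  rw [Int.not_even_iff_odd] at hodd
  obtain ⟨P', rfl⟩ := (hH.cl_range P).2 hP
  exact ⟨hH.hassett P' T hT hodd, hH.hasK3 hP hT hodd⟩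

/-- the classes of all planes -/
theorem IsCohomology.exists_finset (hH : H.IsCohomology) (h : Nat.card X.Plane ≠ 0) :
    ∃ S : Finset (Fin 23 → ℤ), (∀ v, v ∈ S ↔ H.IsPl v) ∧ S.card = Nat.card X.Plane := by
  classical
  have hfin : Finite X.Plane := Nat.finite_of_card_ne_zero h
  have := Fintype.ofFinite X.Plane
  refine ⟨Finset.univ.image H.cl, fun v => ?_, ?_⟩
  · rw [Finset.mem_image]
    constructor
    · rintro ⟨P, -, rfl⟩
      exact (hH.cl_range _).1 ⟨P, rfl⟩
    · intro h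
      obtain ⟨P, hP⟩ := (hH.cl_range v).2 h
      exact ⟨P, Finset.mem_univ _, hP⟩
  · rw [Finset.card_image_of_injective _ hH.cl_injective, Nat.card_eq_fintype_card]
    rfl

/-- the classes of the planes which meet a given plane in a line -/
theorem IsCohomology.exists_finset_adj (hH : H.IsCohomology) (P : X.Plane)
    (hfin : Finite {Q : X.Plane // H.ip (H.cl P) (H.cl Q) = -1}) :
    ∃ S : Finset (Fin 23 → ℤ), (∀ v, v ∈ S ↔ H.IsPl v ∧ H.ip (H.cl P) v = -1) ∧
      S.card = Nat.card {Q : X.Plane // H.ip (H.cl P) (H.cl Q) = -1} := by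
  classical
  have := Fintype.ofFinite {Q : X.Plane // H.ip (H.cl P) (H.cl Q) = -1}
  refine ⟨Finset.univ.image fun Q : {Q : X.Plane // H.ip (H.cl P) (H.cl Q) = -1} => H.cl Q,
    fun v => ?_, ?_⟩
  · rw [Finset.mem_image]
    constructor
    · rintro ⟨Q, -, rfl⟩
      exact ⟨(hH.cl_range _).1 ⟨Q, rfl⟩, Q.2⟩
    · rintro ⟨h, h'⟩
      obtain ⟨Q, rfl⟩ := (hH.cl_range v).2 h
      exact ⟨⟨Q, h'⟩, Finset.mem_univ _, rfl⟩
  · rw [Finset.card_image_of_injective _ (fun a b h => Subtype.ext (hH.cl_injective h)),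
      Nat.card_eq_fintype_card]
    rfl

/-- **The number of planes.** -/
theorem IsCohomology.final (hH : H.IsCohomology) (h12 : 12 ≤ Nat.card X.Plane)
    (hne : Nat.card X.Plane ∉ ({13, 15, 17, 19, 21, 27} : Finset ℕ)) :
    X.IsRational ∧ H.HasK3 := by
  obtain ⟨S, hS, hcard⟩ := hH.exists_finset (by omega)
  refine hH.of_not_allEven fun hE => ?_
  have h1 := hH.card_planes hE hS
  rw [hcard] at h1
  simp only [Finset.mem_insert, Finset.mem_singleton, not_or] at hne
  omega

/-- **The number of planes and the rank.** -/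
theorem IsCohomology.final_rank (hH : H.IsCohomology)
    (h : 2 ^ (23 - H.rank) ≤ Nat.card X.Plane) : X.IsRational ∧ H.HasK3 := by
  have h0 : 0 < 2 ^ (23 - H.rank) := by positivity
  obtain ⟨S, hS, hcard⟩ := hH.exists_finset (by omega)
  refine hH.of_not_allEven fun hE => ?_
  have h1 := hH.card_rank hE (fun v hv => (hS v).1 hv)
  rw [hcard] at h1
  omega

/-- **The planes which meet a given plane in a line.** -/
theorem IsCohomology.final_adj (hH : H.IsCohomology) (P : X.Plane)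
    (h21 : 21 ≤ Nat.card {Q : X.Plane // H.ip (H.cl P) (H.cl Q) = -1}) :
    X.IsRational ∧ H.HasK3 := by
  obtain ⟨S, hS, hcard⟩ := hH.exists_finset_adj P (Nat.finite_of_card_ne_zero (by omega))
  refine hH.of_not_allEven fun hE => ?_
  have h1 := hH.card_adj hE ((hH.cl_range _).1 ⟨P, rfl⟩) hS
  rw [hcard] at h1
  omega

/-- **Twenty-seven planes.** -/
theorem IsCohomology.final_27 (hH : H.IsCohomology) (h27 : Nat.card X.Plane = 27) (P : X.Plane)
    (h10 : Nat.card {Q : X.Plane // H.ip (H.cl P) (H.cl Q) = -1} ≠ 10) :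
    X.IsRational ∧ H.HasK3 := by
  have hfin : Finite X.Plane := Nat.finite_of_card_ne_zero (by omega)
  obtain ⟨S, hS, hcard⟩ := hH.exists_finset (by omega)
  obtain ⟨S', hS', hcard'⟩ := hH.exists_finset_adj P inferInstance
  refine hH.of_not_allEven fun hE => ?_
  have h1 := hH.card_27 hE hS (hcard.trans h27) ((hH.cl_range _).1 ⟨P, rfl⟩) hS'
  exact h10 (hcard'.symm.trans h1)

/-- **Twelve planes which meet in points.** -/
theorem IsCohomology.final_twelve (hH : H.IsCohomology) (P : Fin 12 → X.Plane)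
    (h : ∀ i j, i ≠ j → H.ip (H.cl (P i)) (H.cl (P j)) = 1) : X.IsRational ∧ H.HasK3 := by
  refine hH.of_not_allEven fun hE => ?_
  exact hH.twelve hE (δ := 1) (Or.inl rfl) (P0 := H.cl (P 0)) (P := fun j => H.cl (P j.succ))
    ((hH.cl_range _).1 ⟨_, rfl⟩) (fun j => (hH.cl_range _).1 ⟨_, rfl⟩)
    (fun j => h _ _ (Fin.succ_ne_zero j).symm)
    (fun i j hij => h _ _ fun h' => hij (Fin.succ_injective _ h'))

end H4

end Pool.Agent.Y95.Q
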