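import Pool.Agent.Y95.Q.Form

/-!
# Reduction modulo two
-/

set_option autoImplicit false

namespace Pool.Agent.Y95.Q

namespace H4

open Finset Module

variable {X : CubicFourfold} (H : H4 X)

/-- the reduction modulo two -/
def red : (Fin 23 → ℤ) →+ (Fin 23 → ZMod 2) where
  toFun v i := (v i : ZMod 2)
  map_zero' := by ext i; simp
  map_add' u v := by ext i; simp

theorem red_apply (v : Fin 23 → ℤ) (i : Fin 23) : red v i = (v i : ZMod 2) := rfl

theorem red_smul (n : ℤ) (v : Fin 23 → ℤ) : red (n • v) = (n : ZMod 2) • red v := by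
  ext i
  simp [red_apply]

theorem exists_half {v : Fin 23 → ℤ} (h : red v = 0) : ∃ w, v = (2 : ℤ) • w := by
  refine ⟨fun i => v i / 2, ?_⟩
  ext i
  have h1 : (v i : ZMod 2) = 0 := congrFun h i
  have h2 : (2 : ℤ) ∣ v i := (ZMod.intCast_zmod_eq_zero_iff_dvd (v i) 2).1 h1
  rw [Pi.smul_apply, smul_eq_mul]
  exact (Int.mul_ediv_cancel' h2).symm

theorem red_two (w : Fin 23 → ℤ) : red ((2 : ℤ) • w) = 0 := by
  rw [red_smul]
  have : ((2 : ℤ) : ZMod 2) = 0 := by decide
  rw [this, zero_smul]

/-- the group of Hodge classes -/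
def hodge : Submodule ℤ (Fin 23 → ℤ) where
  carrier := {v | H.IsHodge v}
  add_mem' := H.isHodge_add
  zero_mem' := H.isHodge_zero
  smul_mem' n _ := H.isHodge_smul n

theorem mem_hodge {v : Fin 23 → ℤ} : v ∈ H.hodge ↔ H.IsHodge v := Iff.rfl

/-- a basis of the group of the Hodge classes is independent modulo two -/
theorem basis_indep {r : ℕ} (b : Basis (Fin r) ℤ H.hodge) :
    LinearIndependent (ZMod 2) fun i => red (b i : Fin 23 → ℤ) := by
  classical
  rw [Fintype.linearIndependent_iff]
  intro c hc i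
  let x : H.hodge := ∑ i, ((c i).val : ℤ) • b i
  have h1 : red (x : Fin 23 → ℤ) = 0 := by
    rw [← hc]
    simp only [x, Submodule.coe_sum, Submodule.coe_smul, map_sum]
    refine sum_congr rfl fun i _ => ?_
    rw [red_smul]
    congr 1
    simp
  obtain ⟨w, hw⟩ := exists_half h1
  have hwH : H.IsHodge w := H.isHodge_of_smul two_ne_zero (by rw [← hw]; exact x.2)
  let w' : H.hodge := ⟨w, hwH⟩
  have h2 : x = (2 : ℤ) • w' := Subtype.ext hw
  have h3 : b.repr x i = ((c i).val : ℤ) := by
    simp only [x, map_sum, map_smul, Finsupp.coe_finsetSum, Finset.sum_apply,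
      Finsupp.smul_apply, Basis.repr_self, smul_eq_mul, Finsupp.single_apply]
    rw [Finset.sum_eq_single i]
    · simp
    · intro j _ hj
      simp [hj]
    · simp
  have h4 : b.repr x i = 2 * b.repr w' i := by
    rw [h2, map_smul, Finsupp.smul_apply, smul_eq_mul]
  have h5 : ((c i).val : ℤ) = 2 * b.repr w' i := h3.symm.trans h4
  have h6 : (((c i).val : ℤ) : ZMod 2) = c i := by simp
  rw [← h6, h5]
  push_cast
  have : (2 : ZMod 2) = 0 := by decide
  rw [this, zero_mul]

/-- many Hodge classes which are independent modulo two -/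
theorem exists_indep {κ : Type} [Fintype κ] {f : κ → Fin 23 → ℤ} (hf : ∀ k, H.IsHodge (f k))
    (hi : LinearIndependent ℤ f) : ∃ T : κ → Fin 23 → ℤ, (∀ k, H.IsHodge (T k)) ∧
      LinearIndependent (ZMod 2) fun k => red (T k) := by
  classical
  let b := Module.finBasis ℤ H.hodge
  have hcard : Fintype.card κ ≤ finrank ℤ H.hodge := by
    let f' : κ → H.hodge := fun k => ⟨f k, hf k⟩
    have h1 : LinearIndependent ℤ f' := by
      refine LinearIndependent.of_comp H.hodge.subtype ?_
      exact hi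
    exact h1.fintype_card_le_finrank
  have e : κ ↪ Fin (finrank ℤ H.hodge) := by
    refine (Fintype.equivFin κ).toEmbedding.trans (Fin.castLEEmb hcard)
  exact ⟨fun k => b (e k), fun k => (b (e k)).2, (H.basis_indep b).comp _ e.injective⟩

theorem rank_eq : H.rank = finrank ℤ H.hodge := by
  have h1 : Submodule.span ℤ {v | H.IsHodge v} = H.hodge := Submodule.span_eq H.hodge
  unfold rank
  rw [h1]

variable {H}

theorem IsCohomology.mulVec_injective (hH : H.IsCohomology) :
    Function.Injective (H.B.map (Int.castRingHom (ZMod 2))).mulVec := by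
  have hBdet : IsUnit (H.B.map (Int.castRingHom (ZMod 2))).det := by
    have h1 : (H.B.map (Int.castRingHom (ZMod 2))).det = (Int.castRingHom (ZMod 2)) H.B.det := by
      rw [RingHom.map_det]
      rfl
    rw [h1]
    exact hH.unimodular.map _
  rw [Matrix.mulVec_injective_iff_isUnit, Matrix.isUnit_iff_isUnit_det]
  exact hBdet

omit H in
/-- nonzero vectors in a kernel -/
theorem card_lt_pow {V V' : Type} [AddCommGroup V] [Module (ZMod 2) V] [AddCommGroup V']
    [Module (ZMod 2) V'] [FiniteDimensional (ZMod 2) V] (f : V →ₗ[ZMod 2] V') {n : ℕ}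
    (hn : finrank (ZMod 2) (LinearMap.ker f) = n) {α : Type} (S : Finset α) (ψ : S → V)
    (h0 : ∀ v, f (ψ v) = 0) (hψ : Function.Injective ψ) (hne : ∀ v, ψ v ≠ 0) :
    S.card < 2 ^ n := by
  classical
  let φ : S → LinearMap.ker f := fun v => ⟨ψ v, h0 v⟩
  have hφ : Function.Injective φ := fun v w h => hψ (congrArg Subtype.val h)
  have hφ0 : ∀ v, φ v ≠ 0 := fun v h => hne v (congrArg Subtype.val h)
  have hcard : Nat.card (LinearMap.ker f) = 2 ^ n := by
    rw [Module.natCard_eq_pow_finrank (K := ZMod 2), hn, Nat.card_zmod]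
  have hfin : Finite (LinearMap.ker f) :=
    Nat.finite_of_card_ne_zero (by rw [hcard]; positivity)
  have e : LinearMap.ker f ≃ Fin (2 ^ n) := Finite.equivFinOfCardEq hcard
  have h1 := Fintype.card_lt_of_injective_of_notMem (fun v : S => e (φ v))
    (e.injective.comp hφ) (b := e 0) (by
      rintro ⟨v, hv⟩
      exact hφ0 v (e.injective hv))
  rwa [Fintype.card_coe, Fintype.card_fin] at h1

/-- **The count modulo two**, for sets. -/
theorem IsCohomology.card_lt (hH : H.IsCohomology) {S : Finset (Fin 23 → ℤ)}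
    {g : (Fin 23 → ℤ) → Fin 23 → ℤ} (hg : ∀ v ∈ S, ∀ T, H.IsHodge T → Even (H.ip T (g v)))
    (hg0 : ∀ v ∈ S, red (g v) ≠ 0) (hgi : ∀ v ∈ S, ∀ w ∈ S, red (g v) = red (g w) → v = w) :
    S.card < 2 ^ (23 - H.rank) := by
  classical
  let b := Module.finBasis ℤ H.hodge
  let R : Matrix (Fin (finrank ℤ H.hodge)) (Fin 23) (ZMod 2) := fun k => red (b k : Fin 23 → ℤ)
  let Bm : Matrix (Fin 23) (Fin 23) (ZMod 2) := H.B.map (Int.castRingHom (ZMod 2))
  have hR : R.rank = finrank ℤ H.hodge := by
    have h1 : R.rank = Fintype.card (Fin (finrank ℤ H.hodge)) :=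
      LinearIndependent.rank_matrix (H.basis_indep b)
    rw [h1, Fintype.card_fin]
  have hker : finrank (ZMod 2) (LinearMap.ker R.mulVecLin) = 23 - H.rank := by
    have h1 := LinearMap.finrank_range_add_finrank_ker R.mulVecLin
    have h2 : finrank (ZMod 2) (LinearMap.range R.mulVecLin) = finrank ℤ H.hodge := hR
    rw [h2, finrank_fin_fun] at h1
    rw [rank_eq]
    omega
  have hmem : ∀ v ∈ S, Bm.mulVec (red (g v)) ∈ LinearMap.ker R.mulVecLin := by
    intro v hv
    rw [LinearMap.mem_ker]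
    ext k
    have h1 : ((H.ip (b k : Fin 23 → ℤ) (g v) : ℤ) : ZMod 2) = 0 := by
      rw [ZMod.intCast_zmod_eq_zero_iff_dvd]
      exact (hg v hv _ (b k).2).two_dvd
    refine Eq.trans ?_ h1
    change ∑ x, ((b k : Fin 23 → ℤ) x : ZMod 2) *
      ∑ y, ((H.B x y : ℤ) : ZMod 2) * (g v y : ZMod 2) = _
    simp only [ip, Int.cast_sum, Int.cast_mul, mul_sum, mul_assoc]
  have hinj := hH.mulVec_injective
  refine card_lt_pow R.mulVecLin hker S (fun v => Bm.mulVec (red (g v)))
    (fun v => LinearMap.mem_ker.1 (hmem v v.2)) (fun v w h => ?_) (fun v h => ?_)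
  · exact Subtype.ext (hgi v v.2 w w.2 (hinj h))
  · refine hg0 v v.2 (hinj ?_)
    rw [Matrix.mulVec_zero]
    exact h

/-- **The count modulo two.** -/
theorem IsCohomology.count (hH : H.IsCohomology) {ι κ : Type} [Fintype ι] [Fintype κ]
    (hcard : 23 < Fintype.card ι + Fintype.card κ) {g : ι → Fin 23 → ℤ} {f : κ → Fin 23 → ℤ}
    (hf : ∀ k, H.IsHodge (f k)) (hfi : LinearIndependent ℤ f)
    (hg : ∀ j T, H.IsHodge T → Even (H.ip T (g j)))
    (hgi : ∀ ε : ι → ℤ, (∃ v, ∑ j, ε j • g j = (2 : ℤ) • v) → ∀ j, Even (ε j)) : False := by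
  classical
  obtain ⟨T, hT, hTi⟩ := H.exists_indep hf hfi
  let R : Matrix κ (Fin 23) (ZMod 2) := fun k => red (T k)
  let Bm : Matrix (Fin 23) (Fin 23) (ZMod 2) := H.B.map (Int.castRingHom (ZMod 2))
  have hR : R.rank = Fintype.card κ := LinearIndependent.rank_matrix hTi
  have hBdet : IsUnit Bm.det := by
    have h1 : Bm.det = (Int.castRingHom (ZMod 2)) H.B.det := by
      rw [RingHom.map_det]
      rfl
    rw [h1]
    exact hH.unimodular.map _
  have hBinj : Function.Injective Bm.mulVec := by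
    rw [Matrix.mulVec_injective_iff_isUnit, Matrix.isUnit_iff_isUnit_det]
    exact hBdet
  have hgred : LinearIndependent (ZMod 2) fun j => red (g j) := by
    rw [Fintype.linearIndependent_iff]
    intro c hc i
    have h1 : red (∑ j, ((c j).val : ℤ) • g j) = 0 := by
      rw [← hc, map_sum]
      refine sum_congr rfl fun i _ => ?_
      rw [red_smul]
      congr 1
      simp
    obtain ⟨w, hw⟩ := exists_half h1
    have h2 := hgi _ ⟨w, hw⟩ i
    have h6 : (((c i).val : ℤ) : ZMod 2) = c i := by simp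
    rw [← h6]
    obtain ⟨m, hm⟩ := h2
    rw [hm]
    push_cast
    have : (m : ZMod 2) + m = 2 * m := by ring
    rw [this, show (2 : ZMod 2) = 0 by decide, zero_mul]
  have hg2 : LinearIndependent (ZMod 2) fun j => Bm.mulVecLin (red (g j)) := by
    refine hgred.map' Bm.mulVecLin ?_
    rw [LinearMap.ker_eq_bot]
    exact hBinj
  have hmem : ∀ j, Bm.mulVecLin (red (g j)) ∈ LinearMap.ker R.mulVecLin := by
    intro j
    rw [LinearMap.mem_ker]
    ext k
    have h1 : ((H.ip (T k) (g j) : ℤ) : ZMod 2) = 0 := by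
      rw [ZMod.intCast_zmod_eq_zero_iff_dvd]
      exact (hg j (T k) (hT k)).two_dvd
    refine Eq.trans ?_ h1
    change ∑ x, (T k x : ZMod 2) * ∑ y, ((H.B x y : ℤ) : ZMod 2) * (g j y : ZMod 2) = _
    simp only [ip, Int.cast_sum, Int.cast_mul, mul_sum, mul_assoc]
  have hker : finrank (ZMod 2) (LinearMap.ker R.mulVecLin) + Fintype.card κ = 23 := by
    have h1 := LinearMap.finrank_range_add_finrank_ker R.mulVecLin
    have h2 : finrank (ZMod 2) (LinearMap.range R.mulVecLin) = Fintype.card κ := hR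
    rw [h2, finrank_fin_fun] at h1
    omega
  have h3 : Fintype.card ι ≤ finrank (ZMod 2) (LinearMap.ker R.mulVecLin) := by
    let g' : ι → LinearMap.ker R.mulVecLin := fun j => ⟨_, hmem j⟩
    have h1 : LinearIndependent (ZMod 2) g' := by
      refine LinearIndependent.of_comp (LinearMap.ker R.mulVecLin).subtype ?_
      exact hg2
    exact h1.fintype_card_le_finrank
  omega

end H4

end Pool.Agent.Y95.Q
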